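import Mathlib

/-!
# Asymmetric supersaturation for Rado systems fails

The systems `2x - y = 0` and `2x - y = -2` form a counterexample: every 2-colouring of
`{1, …, 12}` has a solution of the first equation in the first colour or a solution of the second
one in the second colour, while colouring `x` by the parity of `⌊log₂ x⌋` gives no solution of the
first and at most `log₂ n` solutions of the second equation in `{1, …, n}`.
-/

namespace Pool.Agent.Results.MP_9bc523_co.LogarithmicallyMany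

open Filter Topology

/-- A system of linear equations `A x = c` with an integer `l × k` matrix `A`. -/
structure LinSystem where
  /-- number of unknowns -/
  k : ℕ
  /-- number of equations -/
  l : ℕ
  /-- the underlying matrix -/
  A : Matrix (Fin l) (Fin k) ℤ
  /-- the right hand side -/
  c : Fin l → ℤ

/-- `x` is a `k`-distinct solution of the system in the positive integers. -/
def LinSystem.IsSol (𝒜 : LinSystem) (x : Fin 𝒜.k → ℕ) : Prop :=
  Function.Injective x ∧ (∀ j, 1 ≤ x j) ∧ 𝒜.A.mulVec (fun j => (x j : ℤ)) = 𝒜.c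

/-- The system has a `k`-distinct solution in the positive integers. -/
def LinSystem.Irredundant (𝒜 : LinSystem) : Prop := ∃ x, 𝒜.IsSol x

/-- The homogeneous system `A x = 0`. -/
def LinSystem.hom (𝒜 : LinSystem) : LinSystem := ⟨𝒜.k, 𝒜.l, 𝒜.A, 0⟩

/-- The matrix has full rank `l`. -/
def LinSystem.FullRank (𝒜 : LinSystem) : Prop := (𝒜.A.map (Int.cast : ℤ → ℚ)).rank = 𝒜.l

/-- `S` is `(A_1, …, A_r)`-Rado: every `r`-colouring of `S` (only the values on `S` matter) has for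
some `i` a distinct solution of `A_i` in `S` all of whose entries have colour `i`. -/
def IsRado {r : ℕ} (𝒜 : Fin r → LinSystem) (S : Set ℕ) : Prop :=
  ∀ χ : ℕ → Fin r, ∃ i, ∃ x, (𝒜 i).IsSol x ∧ ∀ j, x j ∈ S ∧ χ (x j) = i

/-- The number of distinct solutions of the system in `{1, …, n}` with all entries of colour `i`. -/
noncomputable def numSol {r : ℕ} (𝒜 : LinSystem) (χ : ℕ → Fin r) (i : Fin r) (n : ℕ) : ℕ :=
  {x : Fin 𝒜.k → ℕ | 𝒜.IsSol x ∧ ∀ j, x j ≤ n ∧ χ (x j) = i}.ncard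

/-- the matrix `(2, -1)` -/
def mat : Matrix (Fin 1) (Fin 2) ℤ := !![2, -1]

/-- the systems `2 x - y = 0` and `2 x - y = -2` -/
def ex : Fin 2 → LinSystem := fun i => ⟨2, 1, mat, fun _ => if i = 0 then 0 else -2⟩

lemma mat_mulVec (v : Fin 2 → ℤ) (j : Fin 1) : mat.mulVec v j = 2 * v 0 - v 1 := by
  fin_cases j
  simp [mat, Matrix.mulVec, dotProduct, Fin.sum_univ_two]
  ring

lemma isSol_iff (i : Fin 2) (x : Fin 2 → ℕ) : (ex i).IsSol x ↔
    x 0 ≠ x 1 ∧ 1 ≤ x 0 ∧ 1 ≤ x 1 ∧ 2 * (x 0 : ℤ) - x 1 = if i = 0 then 0 else -2 := by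
  have h1 : Function.Injective x ↔ x 0 ≠ x 1 := by
    constructor
    · intro h h'
      exact absurd (h h') (by decide)
    · intro h a b hab
      fin_cases a <;> fin_cases b
      · rfl
      · exact absurd hab h
      · exact absurd hab.symm h
      · rfl
  have h2 : ((ex i).A.mulVec (fun j => (x j : ℤ)) = (ex i).c) ↔
      2 * (x 0 : ℤ) - x 1 = if i = 0 then 0 else -2 := by
    constructor
    · intro h
      have := congrFun h (0 : Fin 1)
      rw [← mat_mulVec (fun j => (x j : ℤ)) 0]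
      exact this
    · intro h
      funext j
      exact (mat_mulVec (fun j => (x j : ℤ)) j).trans h
  unfold LinSystem.IsSol
  rw [h2]
  constructor
  · rintro ⟨a, b, c⟩
    exact ⟨h1.1 a, b (0 : Fin 2), b (1 : Fin 2), c⟩
  · rintro ⟨a, b, c, d⟩
    have key : ∀ j : Fin 2, 1 ≤ x j := by
      intro j
      fin_cases j
      · exact b
      · exact c
    exact ⟨h1.2 a, key, d⟩

lemma sol_zero (a b : ℕ) (ha : 1 ≤ a) (hab : b = 2 * a) : (ex 0).IsSol ![a, b] := by
  rw [isSol_iff]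
  subst hab
  refine ⟨?_, ?_, ?_, ?_⟩
  · show a ≠ 2 * a
    omega
  · exact ha
  · show 1 ≤ 2 * a
    omega
  · rw [if_pos rfl]
    show 2 * (a : ℤ) - ((2 * a : ℕ) : ℤ) = 0
    push_cast; ring

lemma sol_one (a b : ℕ) (ha : 1 ≤ a) (hab : b = 2 * a + 2) : (ex 1).IsSol ![a, b] := by
  rw [isSol_iff]
  subst hab
  refine ⟨?_, ?_, ?_, ?_⟩
  · show a ≠ 2 * a + 2
    omega
  · exact ha
  · show 1 ≤ 2 * a + 2
    omega
  · rw [if_neg (by decide)]
    show 2 * (a : ℤ) - ((2 * a + 2 : ℕ) : ℤ) = -2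
    push_cast; ring

lemma fullRank (i : Fin 2) : (ex i).FullRank := by
  show (mat.map (Int.cast : ℤ → ℚ)).rank = 1
  have h : LinearIndependent ℚ (mat.map (Int.cast : ℤ → ℚ)).row := by
    rw [linearIndependent_unique_iff]
    intro h0
    have := congrFun h0 (0 : Fin 2)
    simp [mat, Matrix.row] at this
  have h2 := h.rank_matrix
  rw [Fintype.card_fin] at h2
  exact h2

lemma irredundant (i : Fin 2) : (ex i).Irredundant := by
  fin_cases i
  · exact ⟨_, sol_zero 1 2 le_rfl rfl⟩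
  · exact ⟨_, sol_one 1 4 le_rfl rfl⟩

lemma hom_irredundant (i : Fin 2) : (ex i).hom.Irredundant := by
  have h : (ex i).hom.IsSol ![1, 2] := by
    have := sol_zero 1 2 le_rfl rfl
    refine ⟨this.1, this.2.1, ?_⟩
    have h2 := this.2.2
    have e : (ex 0).c = 0 := by
      funext j
      show (if (0 : Fin 2) = 0 then (0 : ℤ) else -2) = 0
      rw [if_pos rfl]
    rw [e] at h2
    exact h2
  exact ⟨_, h⟩

/-- Every 2-colouring of `{1, …, 12}` has a required solution. -/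
lemma rado12 : IsRado ex (Set.Icc 1 12) := by
  intro χ
  by_contra hcon
  push Not at hcon
  have h0 : ∀ a b : ℕ, 1 ≤ a → b = 2 * a → b ≤ 12 → ¬ ((χ a).1 = 0 ∧ (χ b).1 = 0) := by
    rintro a b ha hb hb2 ⟨h1, h2⟩
    obtain ⟨j, hj⟩ := hcon 0 ![a, b] (sol_zero a b ha hb)
    fin_cases j
    · exact hj ⟨ha, by show a ≤ 12; omega⟩ (Fin.ext h1)
    · exact hj ⟨by show 1 ≤ b; omega, hb2⟩ (Fin.ext h2)
  have h1 : ∀ a b : ℕ, 1 ≤ a → b = 2 * a + 2 → b ≤ 12 → ¬ ((χ a).1 = 1 ∧ (χ b).1 = 1) := by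
    rintro a b ha hb hb2 ⟨h1, h2⟩
    obtain ⟨j, hj⟩ := hcon 1 ![a, b] (sol_one a b ha hb)
    fin_cases j
    · exact hj ⟨ha, by show a ≤ 12; omega⟩ (Fin.ext h1)
    · exact hj ⟨by show 1 ≤ b; omega, hb2⟩ (Fin.ext h2)
  have l : ∀ a, (χ a).1 < 2 := fun a => (χ a).2
  have a1 := h0 1 2 (by norm_num) (by norm_num) (by norm_num)
  have a2 := h0 2 4 (by norm_num) (by norm_num) (by norm_num)
  have a3 := h0 3 6 (by norm_num) (by norm_num) (by norm_num)
  have a4 := h0 4 8 (by norm_num) (by norm_num) (by norm_num)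
  have a5 := h0 5 10 (by norm_num) (by norm_num) (by norm_num)
  have a6 := h0 6 12 (by norm_num) (by norm_num) (by norm_num)
  have b1 := h1 1 4 (by norm_num) (by norm_num) (by norm_num)
  have b2 := h1 2 6 (by norm_num) (by norm_num) (by norm_num)
  have b3 := h1 3 8 (by norm_num) (by norm_num) (by norm_num)
  have b4 := h1 4 10 (by norm_num) (by norm_num) (by norm_num)
  have b5 := h1 5 12 (by norm_num) (by norm_num) (by norm_num)
  have l1 := l 1
  have l2 := l 2
  have l3 := l 3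
  have l4 := l 4
  have l5 := l 5
  have l6 := l 6
  have l8 := l 8
  have l10 := l 10
  have l12 := l 12
  omega

/-- the colouring by the parity of `⌊log₂ x⌋` -/
def col (x : ℕ) : Fin 2 := ⟨Nat.log 2 x % 2, Nat.mod_lt _ (by norm_num)⟩

lemma numSol_le (i : Fin 2) (n : ℕ) : numSol (ex i) col i n ≤ Nat.log 2 n := by
  unfold numSol
  have hmain : ∀ x : Fin 2 → ℕ, (ex i).IsSol x → (∀ j, x j ≤ n ∧ col (x j) = i) →
      x 1 = 2 ^ (Nat.log 2 (x 1)) ∧ 1 ≤ Nat.log 2 (x 1) ∧ Nat.log 2 (x 1) ≤ Nat.log 2 n ∧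
        x 1 = 2 * x 0 + 2 := by
    intro x hx hc
    rw [isSol_iff] at hx
    obtain ⟨_, h1, h2, h3⟩ := hx
    have c0 := congrArg Fin.val ((hc 0).2.trans (hc 1).2.symm)
    simp only [col] at c0
    split_ifs at h3 with hi
    · exfalso
      have e : x 1 = x 0 * 2 := by omega
      rw [e, Nat.log_mul_base (by norm_num) (by omega)] at c0
      omega
    · have e : x 1 = (x 0 + 1) * 2 := by omega
      have e2 : Nat.log 2 (x 1) = Nat.log 2 (x 0 + 1) + 1 := by
        rw [e, Nat.log_mul_base (by norm_num) (by omega)]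
      rw [e2] at c0 ⊢
      have hmono : Nat.log 2 (x 0) ≤ Nat.log 2 (x 0 + 1) := Nat.log_mono_right (by omega)
      have hne : Nat.log 2 (x 0) < Nat.log 2 (x 0 + 1) := by
        rcases hmono.lt_or_eq with h | h
        · exact h
        · rw [h] at c0; omega
      have hpow : 2 ^ Nat.log 2 (x 0 + 1) ≤ x 0 + 1 := Nat.pow_log_le_self 2 (by omega)
      have hlt : x 0 < 2 ^ Nat.log 2 (x 0 + 1) := Nat.lt_pow_of_log_lt (by norm_num) hne
      have heq : x 0 + 1 = 2 ^ Nat.log 2 (x 0 + 1) := by omega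
      refine ⟨?_, by omega, ?_, by omega⟩
      · rw [e, pow_succ, ← heq]
      · rw [← e2]
        exact Nat.log_mono_right (hc 1).1
  have hle : ({x : Fin (ex i).k → ℕ | (ex i).IsSol x ∧ ∀ j, x j ≤ n ∧ col (x j) = i}).ncard ≤
      ((Finset.Icc 1 (Nat.log 2 n) : Finset ℕ) : Set ℕ).ncard := by
    refine Set.ncard_le_ncard_of_injOn (fun x : Fin 2 → ℕ => Nat.log 2 (x 1)) ?_ ?_
      (Finset.finite_toSet _)
    · rintro x ⟨hx, hc⟩
      obtain ⟨_, h1, h2, _⟩ := hmain x hx hc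
      exact Finset.mem_coe.2 (Finset.mem_Icc.2 ⟨h1, h2⟩)
    · rintro x ⟨hx, hc⟩ y ⟨hy, hd⟩ hxy
      obtain ⟨h1, _, _, h4⟩ := hmain x hx hc
      obtain ⟨h1', _, _, h4'⟩ := hmain y hy hd
      have hxy' : Nat.log 2 (x (1 : Fin 2)) = Nat.log 2 (y (1 : Fin 2)) := hxy
      have e : x (1 : Fin 2) = y (1 : Fin 2) := by rw [h1, h1', hxy']
      have e0 : x (0 : Fin 2) = y (0 : Fin 2) := by omega
      have key : ∀ j : Fin 2, x j = y j := by
        intro j
        fin_cases j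
        · exact e0
        · exact e
      funext j
      exact key j
  refine hle.trans ?_
  rw [Set.ncard_coe_finset, Nat.card_Icc]
  omega

/-- **Negative answer.** There are systems `A_1, A_2` satisfying all the hypotheses of the question
such that for every `c > 0` and `n₀` some `n > n₀` and some 2-colouring of `{1, …, n}` have, for both
`i`, fewer than `c n^(k_i - l_i)` solutions to `A_i` in colour `i`. In fact `k_i = 2`, `l_i = 1`, and
one colouring of the positive integers has for all `n` and both `i` at most `log₂ n` solutions to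
`A_i` in `{1, …, n}` in colour `i`. -/
theorem result : ∃ 𝒜 : Fin 2 → LinSystem,
    (∀ i, (𝒜 i).FullRank) ∧ (∀ i, (𝒜 i).Irredundant) ∧ (∀ i, (𝒜 i).hom.Irredundant) ∧
    IsRado 𝒜 {m | 1 ≤ m} ∧
    (∀ c : ℝ, 0 < c → ∀ n₀ : ℕ, ∃ n > n₀, ∃ χ : ℕ → Fin 2, ∀ i,
      (numSol (𝒜 i) χ i n : ℝ) < c * (n : ℝ) ^ ((𝒜 i).k - (𝒜 i).l)) ∧
    (∀ i, (𝒜 i).k = 2 ∧ (𝒜 i).l = 1) ∧
    ∃ χ : ℕ → Fin 2, ∀ n i, numSol (𝒜 i) χ i n ≤ Nat.log 2 n := by
  refine ⟨ex, fullRank, irredundant, hom_irredundant, ?_, ?_, fun i => ⟨rfl, rfl⟩, col,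
    fun n i => numSol_le i n⟩
  · intro χ
    obtain ⟨i, x, hx, hc⟩ := rado12 χ
    exact ⟨i, x, hx, fun j => ⟨(hc j).1.1, (hc j).2⟩⟩
  · intro c hc n₀
    have ht : Tendsto (fun m : ℕ => (m : ℝ) ^ 1 / (2 : ℝ) ^ m) atTop (𝓝 0) :=
      tendsto_pow_const_div_const_pow_of_one_lt 1 (by norm_num)
    have h1 := (ht.eventually (gt_mem_nhds hc)).and (eventually_ge_atTop n₀)
    obtain ⟨m, hm, hmn⟩ := h1.exists
    refine ⟨2 ^ m, lt_of_le_of_lt hmn Nat.lt_two_pow_self, col, fun i => ?_⟩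
    have h2 : (numSol (ex i) col i (2 ^ m) : ℝ) ≤ m := by
      have := numSol_le i (2 ^ m)
      rw [Nat.log_pow (by norm_num)] at this
      exact_mod_cast this
    have h3 : (m : ℝ) < c * 2 ^ m := by
      rw [pow_one, div_lt_iff₀ (by positivity)] at hm
      exact hm
    have e : ((2 ^ m : ℕ) : ℝ) ^ ((ex i).k - (ex i).l) = 2 ^ m := by
      show ((2 ^ m : ℕ) : ℝ) ^ 1 = 2 ^ m
      push_cast
      ring
    rw [e]
    linarith

end Pool.Agent.Results.MP_9bc523_co.LogarithmicallyMany
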